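import Pool.Agent.N343.TC.Stm

/-!
Project TC (helper343), MP_8dfb46_an, part SMD (helper674): the image of the disc under a conformal
map of a larger disc is a smooth domain.
-/

set_option autoImplicit false

open MeasureTheory Set Filter Topology Metric Complex
open scoped ContDiff RealInnerProductSpace ComplexConjugate

namespace Pool.Agent.N674.TC

open Pool.Agent.N343.TC

section
variable {f : ℂ → ℂ} {r : ℝ}

theorem cl_sub (hc : Conf f r) : closedBall (0 : ℂ) 1 ⊆ ball 0 r := closedBall_subset_ball hc.1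

theorem cont_cl (hc : Conf f r) : ContinuousOn f (closedBall 0 1) :=
  hc.2.1.continuousOn.mono (cl_sub hc)

theorem comp_cl (hc : Conf f r) : IsCompact (f '' closedBall 0 1) :=
  (isCompact_closedBall 0 1).image_of_continuousOn (cont_cl hc)

theorem closure_eq (hc : Conf f r) : closure (f '' ball 0 1) = f '' closedBall 0 1 := by
  apply Subset.antisymm
  · exact closure_minimal (image_mono ball_subset_closedBall) (comp_cl hc).isClosed
  · have h1 : closure (ball (0 : ℂ) 1) = closedBall 0 1 := closure_ball 0 one_ne_zero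
    rw [← h1]
    apply ContinuousOn.image_closure
    rw [h1]
    exact cont_cl hc

theorem eq_pre (hc : Conf f r) {g : ℂ → ℂ} (hg : ∀ w ∈ ball (0 : ℂ) r, g (f w) = w) :
    f '' ball 0 1 = f '' ball 0 r ∩ g ⁻¹' ball 0 1 := by
  have hsub : ball (0 : ℂ) 1 ⊆ ball 0 r := ball_subset_closedBall.trans (cl_sub hc)
  ext y
  constructor
  · rintro ⟨w, hw, rfl⟩
    refine ⟨⟨w, hsub hw, rfl⟩, ?_⟩
    rw [mem_preimage, hg w (hsub hw)]
    exact hw
  · rintro ⟨⟨w, hw, rfl⟩, h⟩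
    rw [mem_preimage, hg w hw] at h
    exact ⟨w, h, rfl⟩

theorem frontier_eq (hc : Conf f r) (ho : IsOpen (f '' ball 0 1)) :
    frontier (f '' ball 0 1) = f '' sphere 0 1 := by
  rw [frontier, ho.interior_eq, closure_eq hc]
  ext y
  constructor
  · rintro ⟨⟨w, hw, rfl⟩, h⟩
    refine ⟨w, ?_, rfl⟩
    rw [mem_closedBall, dist_zero_right] at hw
    rw [mem_sphere, dist_zero_right]
    by_contra hne
    apply h
    refine ⟨w, ?_, rfl⟩
    rw [mem_ball, dist_zero_right]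
    exact lt_of_le_of_ne hw hne
  · rintro ⟨w, hw, rfl⟩
    refine ⟨⟨w, sphere_subset_closedBall hw, rfl⟩, ?_⟩
    rintro ⟨w', hw', he⟩
    have h1 := hc.2.2.1 (cl_sub hc (ball_subset_closedBall hw'))
      (cl_sub hc (sphere_subset_closedBall hw)) he
    rw [h1] at hw'
    rw [mem_ball] at hw'
    rw [mem_sphere] at hw
    linarith

/-- the derivative of the square of the norm -/
theorem grad (hc : Conf f r) {g : ℂ → ℂ} (hV : IsOpen (f '' ball 0 r))
    (hgd : DifferentiableOn ℂ g (f '' ball 0 r))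
    (hg : ∀ w ∈ ball (0 : ℂ) r, g (f w) = w ∧ deriv g (f w) = (deriv f w)⁻¹) {w : ℂ}
    (hw : w ∈ ball (0 : ℂ) r) :
    HasGradientAt (fun y : ℂ => ‖g y‖ ^ 2 - 1)
      ((2 / ‖deriv f w‖ : ℝ) • (w * deriv f w / (‖deriv f w‖ : ℂ))) (f w) := by
  have hx : f w ∈ f '' ball 0 r := ⟨w, hw, rfl⟩
  have h1 : DifferentiableAt ℂ g (f w) := hgd.differentiableAt (hV.mem_nhds hx)
  have h2 : HasDerivAt g ((deriv f w)⁻¹) (f w) := by
    rw [← (hg w hw).2]
    exact h1.hasDerivAt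
  have h3 : HasFDerivAt g (((ContinuousLinearMap.smulRight (1 : ℂ →L[ℂ] ℂ)
      ((deriv f w)⁻¹)) : ℂ →L[ℂ] ℂ).restrictScalars ℝ) (f w) := h2.hasFDerivAt.restrictScalars ℝ
  have h4 := (h3.norm_sq).sub_const 1
  rw [hasGradientAt_iff_hasFDerivAt]
  refine h4.congr_fderiv ?_
  ext v
  have hne : deriv f w ≠ 0 := hc.2.2.2 w hw
  have hnp : (0 : ℝ) < ‖deriv f w‖ := norm_pos_iff.2 hne
  have e1 : (deriv f w)⁻¹ = conj (deriv f w) * (((‖deriv f w‖ ^ 2)⁻¹ : ℝ) : ℂ) := by
    rw [Complex.inv_def, Complex.normSq_eq_norm_sq]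
  have e2 : (InnerProductSpace.toDual ℝ ℂ
      ((2 / ‖deriv f w‖ : ℝ) • (w * deriv f w / (‖deriv f w‖ : ℂ)))) v =
      2 * (‖deriv f w‖ ^ 2)⁻¹ * (conj w * (conj (deriv f w) * v)).re := by
    rw [InnerProductSpace.toDual_apply_apply, Complex.inner]
    have e3 : conj ((2 / ‖deriv f w‖ : ℝ) • (w * deriv f w / (‖deriv f w‖ : ℂ))) * v =
        ((2 * (‖deriv f w‖ ^ 2)⁻¹ : ℝ) : ℂ) * (conj w * (conj (deriv f w) * v)) := by
      rw [Complex.real_smul, map_mul, Complex.conj_ofReal, map_div₀, Complex.conj_ofReal, map_mul]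
      have : (‖deriv f w‖ : ℂ) ≠ 0 := by exact_mod_cast hnp.ne'
      push_cast
      field_simp
    rw [mul_comm v, e3, Complex.re_ofReal_mul]
  have e4 : (2 • (innerSL ℝ (g (f w))).comp (((ContinuousLinearMap.smulRight (1 : ℂ →L[ℂ] ℂ)
      ((deriv f w)⁻¹)) : ℂ →L[ℂ] ℂ).restrictScalars ℝ)) v =
      2 * (‖deriv f w‖ ^ 2)⁻¹ * (conj w * (conj (deriv f w) * v)).re := by
    have e5 : (2 • (innerSL ℝ (g (f w))).comp (((ContinuousLinearMap.smulRight (1 : ℂ →L[ℂ] ℂ)
        ((deriv f w)⁻¹)) : ℂ →L[ℂ] ℂ).restrictScalars ℝ)) v =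
        2 * inner ℝ (g (f w)) (v * (deriv f w)⁻¹) := by
      simp
      ring
    rw [e5, (hg w hw).1, Complex.inner, e1]
    have e6 : v * (conj (deriv f w) * (((‖deriv f w‖ ^ 2)⁻¹ : ℝ) : ℂ)) * conj w =
        (((‖deriv f w‖ ^ 2)⁻¹ : ℝ) : ℂ) * (conj w * (conj (deriv f w) * v)) := by ring
    rw [e6, Complex.re_ofReal_mul]
    ring
  rw [e2, e4]

theorem normal (hc : Conf f r) {g : ℂ → ℂ} (hV : IsOpen (f '' ball 0 r))
    (hgd : DifferentiableOn ℂ g (f '' ball 0 r))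
    (hg : ∀ w ∈ ball (0 : ℂ) r, g (f w) = w ∧ deriv g (f w) = (deriv f w)⁻¹) {w : ℂ}
    (hw : w ∈ sphere (0 : ℂ) 1) :
    IsOuterNormal (f '' ball 0 1) (f w) (w * deriv f w / (‖deriv f w‖ : ℂ)) := by
  have hwr : w ∈ ball (0 : ℂ) r := cl_sub hc (sphere_subset_closedBall hw)
  have hwn : ‖w‖ = 1 := by rwa [mem_sphere, dist_zero_right] at hw
  have hne : deriv f w ≠ 0 := hc.2.2.2 w hwr
  have hnp : (0 : ℝ) < ‖deriv f w‖ := norm_pos_iff.2 hne
  have hx : f w ∈ f '' ball 0 r := ⟨w, hwr, rfl⟩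
  refine ⟨?_, ?_⟩
  · rw [norm_div, norm_mul, hwn, one_mul, Complex.norm_real, norm_norm, div_self hnp.ne']
  obtain ⟨R, hR, hball⟩ := Metric.nhds_basis_closedBall.mem_iff.1 (hV.mem_nhds hx)
  let φ : ContDiffBump (f w) := ⟨R / 2, R, by positivity, by linarith⟩
  have hφ1 : ∀ y ∈ ball (f w) (R / 2), φ y = 1 := fun y hy =>
    φ.one_of_mem_closedBall (ball_subset_closedBall hy)
  have hφs : tsupport φ ⊆ f '' ball 0 r := by
    rw [φ.tsupport_eq]
    exact hball
  refine ⟨ball (f w) (R / 2), fun y => φ y * (‖g y‖ ^ 2 - 1), isOpen_ball,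
    mem_ball_self (by positivity), ?_, ?_, 2 / ‖deriv f w‖, by positivity, ?_⟩
  · rw [contDiff_iff_contDiffAt]
    intro y
    by_cases hy : y ∈ f '' ball 0 r
    · refine ContDiffAt.mul φ.contDiff.contDiffAt ?_
      refine ContDiffAt.sub ?_ contDiffAt_const
      have h1 : ContDiffAt ℂ ∞ g y := (hgd.analyticAt (hV.mem_nhds hy)).contDiffAt
      exact (h1.restrict_scalars ℝ).norm_sq ℝ
    · have h1 : y ∉ tsupport φ := fun h => hy (hφs h)
      have h2 : (fun y => φ y * (‖g y‖ ^ 2 - 1)) =ᶠ[𝓝 y] fun _ => (0 : ℝ) := by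
        filter_upwards [notMem_tsupport_iff_eventuallyEq.1 h1] with z hz
        rw [hz, Pi.zero_apply, zero_mul]
      exact contDiffAt_const.congr_of_eventuallyEq h2
  · ext y
    constructor
    · rintro ⟨h1, h2⟩
      refine ⟨h2, ?_⟩
      rw [eq_pre hc (fun w hw => (hg w hw).1)] at h1
      have h3 := h1.2
      rw [mem_preimage, mem_ball, dist_zero_right] at h3
      show φ y * (‖g y‖ ^ 2 - 1) < 0
      rw [hφ1 y h2, one_mul]
      nlinarith [norm_nonneg (g y)]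
    · rintro ⟨h2, h1⟩
      refine ⟨?_, h2⟩
      rw [eq_pre hc (fun w hw => (hg w hw).1)]
      refine ⟨hball (ball_subset_closedBall (ball_subset_ball (by linarith) h2)), ?_⟩
      rw [mem_preimage, mem_ball, dist_zero_right]
      change φ y * (‖g y‖ ^ 2 - 1) < 0 at h1
      rw [hφ1 y h2, one_mul] at h1
      by_contra h3
      push Not at h3
      nlinarith
  · apply HasGradientAt.gradient
    rw [hasGradientAt_iff_hasFDerivAt]
    have h1 := (hasGradientAt_iff_hasFDerivAt.1 (grad hc hV hgd hg hwr))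
    refine h1.congr_of_eventuallyEq ?_
    filter_upwards [ball_mem_nhds (f w) (by positivity : 0 < R / 2)] with y hy
    rw [hφ1 y hy, one_mul]

end

theorem main (hI : S_INV) : S_SMD := by
  intro f r hc
  obtain ⟨hV, g, hgd, hg⟩ := hI f r hc
  have ho : IsOpen (f '' ball 0 1) := by
    rw [eq_pre hc (fun w hw => (hg w hw).1)]
    exact hgd.continuousOn.isOpen_inter_preimage hV isOpen_ball
  have hfr := frontier_eq hc ho
  refine ⟨⟨ho, ?_, ?_, ?_⟩, hfr, closure_eq hc, fun w hw => normal hc hV hgd hg hw⟩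
  · have h1 : IsConnected (ball (0 : ℂ) 1) :=
      ⟨⟨0, mem_ball_self one_pos⟩, (convex_ball (0 : ℂ) 1).isPreconnected⟩
    exact h1.image f ((cont_cl hc).mono ball_subset_closedBall)
  · exact (comp_cl hc).isBounded.subset (image_mono ball_subset_closedBall)
  · intro x hx
    rw [hfr] at hx
    obtain ⟨w, hw, rfl⟩ := hx
    exact ⟨_, normal hc hV hgd hg hw⟩

end Pool.Agent.N674.TC
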